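import Pool.Agent.Lib.MP_79d702_lc.LBP.Norm

/-!
Cutting the computation where the span of the earlier queries becomes large.
-/

namespace Pool.Agent.Lib.MP_79d702_lc.LBP

open Finset Module Relation

namespace Program

variable {n : ℕ} (B : Program n)

theorem Path.reach {B : Program n} {u : Fin B.size} {k : ℕ} (h : B.Path u k) :
    ReflTransGen B.Edge B.start u := by
  induction h with
  | start => exact .refl
  | fresh _ e _ ih => exact ih.tail e
  | again _ e _ ih => exact ih.tail e

theorem edge_next {u : Fin B.size} (hu : B.out u = none) (a : ZMod 2) : B.Edge u (B.next u a) :=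
  ⟨hu, a, rfl⟩

theorem Edge.lt {B : Program n} {u v : Fin B.size} (h : B.Edge u v) : u < v := by
  obtain ⟨h1, a, rfl⟩ := h
  exact B.acyclic u a h1

theorem pre_start : B.pre B.start = ⊥ := by
  have h1 : ∀ u v, ReflTransGen B.Edge u v → u ≤ v := fun u v h => by
    induction h with
    | refl => exact le_rfl
    | tail _ e ih => exact ih.trans e.lt.le
  have h2 : ∀ u v, TransGen B.Edge u v → u < v := fun u v h => by
    induction h with
    | single e => exact e.lt
    | tail _ e ih => exact ih.trans e.lt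
  rw [pre, Submodule.span_eq_bot]
  rintro _ ⟨w, ⟨a, b⟩, rfl⟩
  exact absurd (h2 _ _ b) (not_lt.2 (h1 _ _ a))

theorem pre_le {u v : Fin B.size} (e : B.Edge u v) : B.pre u ≤ B.pre v :=
  Submodule.span_mono (Set.image_mono fun _ h => ⟨h.1, h.2.tail e⟩)

theorem query_mem {u v : Fin B.size} (hu : ReflTransGen B.Edge B.start u)
    (e : TransGen B.Edge u v) : B.query u ∈ B.pre v :=
  Submodule.subset_span ⟨u, ⟨hu, e⟩, rfl⟩

theorem finrank_pre_le (u : Fin B.size) : finrank (ZMod 2) (B.pre u) ≤ n := by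
  simpa using (B.pre u).finrank_le

theorem path_next {u v : Fin B.size} {k : ℕ} (h : B.Path u k) (e : B.Edge u v) :
    ∃ k', B.Path v k' ∧ finrank (ZMod 2) (B.pre u) + k + 1 ≤ finrank (ZMod 2) (B.pre v) + k' := by
  by_cases hq : B.query u ∈ B.pre u
  · have := Submodule.finrank_mono (B.pre_le e)
    exact ⟨k + 1, h.again e hq, by omega⟩
  · have := Submodule.finrank_lt_finrank_of_lt (lt_of_le_of_ne (B.pre_le e) fun h0 =>
      hq (h0 ▸ B.query_mem h.reach (.single e)))
    exact ⟨k, h.fresh e hq, by omega⟩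

theorem val_of_run {s : ℕ} (hs : B.RepeatsAtMost s) {x : Fin n → ZMod 2} {u : Fin B.size} {b : Bool}
    (h : B.Run x u b) : ∀ k H, B.Path u k → n + s ≤ finrank (ZMod 2) (B.pre u) + k + H →
      B.val H u x = sgnB b := by
  induction h with
  | sink hu => exact fun k H _ _ => B.val_sink hu _ _
  | @step u b hu _ ih =>
    intro k H hp hH
    obtain ⟨k', h1, h2⟩ := B.path_next hp (B.edge_next hu (B.query u ⬝ᵥ x))
    have h3 := hs _ _ h1
    have h4 := B.finrank_pre_le (B.next u (B.query u ⬝ᵥ x))
    obtain ⟨H, rfl⟩ : ∃ H', H = H' + 1 := ⟨H - 1, by omega⟩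
    rw [B.val_step hu]
    exact ih k' H h1 (by omega)

/-- nodes before the cut -/
def Good (m : ℕ) (u : Fin B.size) : Prop := finrank (ZMod 2) (B.pre u) + m < n

open Classical in
/-- the last good node on the path of `x` -/
noncomputable def cut (m : ℕ) : ℕ → Fin B.size → (Fin n → ZMod 2) → Fin B.size
  | 0, u, _ => u
  | f + 1, u, x => if B.out u = none ∧ B.Good m (B.next u (B.query u ⬝ᵥ x)) then
      cut m f (B.next u (B.query u ⬝ᵥ x)) x else u

open Classical in
theorem cut_succ (m f : ℕ) (u : Fin B.size) (x : Fin n → ZMod 2) : B.cut m (f + 1) u x =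
    if B.out u = none ∧ B.Good m (B.next u (B.query u ⬝ᵥ x)) then
      B.cut m f (B.next u (B.query u ⬝ᵥ x)) x else u := rfl

theorem cut_reach (m f : ℕ) (x : Fin n → ZMod 2) :
    ∀ u, ReflTransGen B.Edge u (B.cut m f u x) := by
  induction f with
  | zero => exact fun u => .refl
  | succ f ih =>
    intro u
    rw [cut_succ]
    split_ifs with h
    · exact .head (B.edge_next h.1 _) (ih _)
    · exact .refl

theorem cut_good (m f : ℕ) (x : Fin n → ZMod 2) :
    ∀ u, B.Good m u → B.Good m (B.cut m f u x) := by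
  induction f with
  | zero => exact fun u h => h
  | succ f ih =>
    intro u hu
    rw [cut_succ]
    split_ifs with h
    · exact ih _ h.2
    · exact hu

theorem val_cut {s : ℕ} (hs : B.RepeatsAtMost s) (m f : ℕ) (x : Fin n → ZMod 2) (b : Bool) :
    ∀ u k, B.Path u k → B.size ≤ u + f → B.Run x u b →
      B.val (m + s + 1) (B.cut m f u x) x = sgnB b := by
  induction f with
  | zero => exact fun u k _ h => absurd u.2 (by omega)
  | succ f ih =>
    intro u k hp hf hr
    rw [cut_succ]
    cases hr with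
    | sink hu =>
      rw [if_neg (by simp [hu])]
      exact B.val_sink hu _ _
    | step hu hr =>
      obtain ⟨k', h1, -⟩ := B.path_next hp (B.edge_next hu (B.query u ⬝ᵥ x))
      split_ifs with h
      · have := B.acyclic u (B.query u ⬝ᵥ x) hu
        exact ih _ k' h1 (by omega) hr
      · rw [B.val_step hu]
        refine B.val_of_run hs hr k' _ h1 ?_
        have : ¬ B.Good m (B.next u (B.query u ⬝ᵥ x)) := fun h0 => h ⟨hu, h0⟩
        unfold Good at this
        omega

open Classical in
/-- the shifts that are not seen up to the node `u` -/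
noncomputable def inv (u : Fin B.size) : Finset (Fin n → ZMod 2) :=
  univ.filter fun z => B.query u ⬝ᵥ z = 0 ∧ ∀ p ∈ B.pre u, p ⬝ᵥ z = 0

theorem mem_inv {u : Fin B.size} {z : Fin n → ZMod 2} :
    z ∈ B.inv u ↔ B.query u ⬝ᵥ z = 0 ∧ ∀ p ∈ B.pre u, p ⬝ᵥ z = 0 := by
  simp only [inv, mem_filter, mem_univ, true_and]

theorem cut_add (m f : ℕ) (x z : Fin n → ZMod 2) : ∀ u, ReflTransGen B.Edge B.start u →
    z ∈ B.inv (B.cut m f u x) → B.cut m f u (x + z) = B.cut m f u x := by
  induction f with
  | zero => exact fun u _ _ => rfl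
  | succ f ih =>
    intro u hu hz
    have h0 : B.query u ⬝ᵥ (x + z) = B.query u ⬝ᵥ x := by
      have h1 := B.mem_inv.1 hz
      rw [dotProduct_add, add_eq_left]
      rcases reflTransGen_iff_eq_or_transGen.1 (B.cut_reach m (f + 1) x u) with e | e
      · rw [e] at h1; exact h1.1
      · exact h1.2 _ (B.query_mem hu e)
    rw [cut_succ] at hz
    rw [cut_succ, cut_succ, h0]
    split_ifs with h
    · rw [if_pos h] at hz
      exact ih _ (hu.tail (B.edge_next h.1 _)) hz
    · rfl

theorem card_inv {m : ℕ} {u : Fin B.size} (hu : B.Good m u) : 2 ^ m ≤ #(B.inv u) := by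
  classical
  let W : Submodule (ZMod 2) (Fin n → ZMod 2) := B.pre u ⊔ Submodule.span (ZMod 2) {B.query u}
  have h1 : finrank (ZMod 2) W ≤ finrank (ZMod 2) (B.pre u) + 1 :=
    (Submodule.finrank_add_le_finrank_add_finrank _ _).trans
      (Nat.add_le_add_left (by simpa using finrank_span_le_card (R := ZMod 2) {B.query u}) _)
  let e := dotProductEquiv (ZMod 2) (Fin n)
  have h2 := Subspace.finrank_add_finrank_dualCoannihilator_eq (W.map e.toLinearMap)
  rw [LinearEquiv.finrank_map_eq] at h2
  set Z := (W.map e.toLinearMap).dualCoannihilator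
  have h3 : m ≤ finrank (ZMod 2) Z := by
    unfold Good at hu
    simp only [finrank_fintype_fun_eq_card, Fintype.card_fin] at h2
    omega
  have h4 : Nat.card Z = 2 ^ finrank (ZMod 2) Z := by
    rw [Module.natCard_eq_pow_finrank (K := ZMod 2), Nat.card_zmod]
  refine (Nat.pow_le_pow_right two_pos h3).trans ?_
  rw [← h4, ← Nat.card_eq_finsetCard]
  refine Nat.card_le_card_of_injective (fun z => ⟨z.1, B.mem_inv.2 ?_⟩)
    fun a b h => Subtype.ext (Subtype.mk.inj h)
  have h5 : ∀ p ∈ W, p ⬝ᵥ z.1 = 0 := fun p hp =>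
    (Submodule.mem_dualCoannihilator _).1 z.2 (e p) ⟨p, hp, rfl⟩
  exact ⟨h5 _ (Submodule.mem_sup_right (Submodule.mem_span_singleton_self _)),
    fun p hp => h5 p (Submodule.mem_sup_left hp)⟩

/-- averaging over the invisible shifts -/
theorem sum_cut (m : ℕ) (a : Fin B.size → (Fin n → ZMod 2) → ℝ) :
    ∑ x, a (B.cut m B.size B.start x) x = ∑ x, (∑ z ∈ B.inv (B.cut m B.size B.start x),
      a (B.cut m B.size B.start x) (x + z)) / #(B.inv (B.cut m B.size B.start x)) := by
  classical
  set e := B.cut m B.size B.start with he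
  rw [← sum_fiberwise univ e, ← sum_fiberwise univ e]
  refine sum_congr rfl fun u _ => ?_
  have e1 : ∑ x with e x = u, a (e x) x = ∑ x with e x = u, a u x :=
    sum_congr rfl fun x hx => by rw [(mem_filter.1 hx).2]
  have e2 : ∑ x with e x = u, (∑ z ∈ B.inv (e x), a (e x) (x + z)) / #(B.inv (e x)) =
      ∑ x with e x = u, (∑ z ∈ B.inv u, a u (x + z)) / #(B.inv u) :=
    sum_congr rfl fun x hx => by rw [(mem_filter.1 hx).2]
  rw [e1, e2, ← sum_div, sum_comm]
  have h0 : (#(B.inv u) : ℝ) ≠ 0 := by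
    have : (0 : Fin n → ZMod 2) ∈ B.inv u := B.mem_inv.2 (by simp)
    exact_mod_cast (card_pos.2 ⟨_, this⟩).ne'
  have h1 : ∀ z ∈ B.inv u, ∑ x with e x = u, a u (x + z) = ∑ x with e x = u, a u x := by
    intro z hz
    have h2 : ∀ x : Fin n → ZMod 2, x + z + z = x := fun x => by
      funext i
      have : ∀ c d : ZMod 2, c + d + d = c := by decide
      exact this _ _
    have h3 : ∀ x, e x = u → e (x + z) = u := fun x hx => by
      rw [← hx, he]
      exact B.cut_add m _ x z _ .refl (by rw [← he, hx]; exact hz)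
    refine sum_nbij' (· + z) (· + z) (fun x hx => ?_) (fun x hx => ?_) (fun x _ => h2 x)
      (fun x _ => h2 x) fun _ _ => rfl
    · exact mem_filter.2 ⟨mem_univ _, h3 x (mem_filter.1 hx).2⟩
    · exact mem_filter.2 ⟨mem_univ _, h3 x (mem_filter.1 hx).2⟩
  rw [sum_congr rfl h1, sum_const, nsmul_eq_mul, mul_div_cancel_left₀ _ h0]

end Program

end Pool.Agent.Lib.MP_79d702_lc.LBP
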