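import Mathlib

/-!
Linear branching programs over `F₂`.
-/

namespace Pool.Agent.Lib.MP_79d702_lc.LBP

/-- A linear branching program on inputs `x ∈ F₂ⁿ`: an acyclic graph on `size` nodes (numbered
along the edges). A node `u` is a sink with label `b` (`out u = some b`) or an inner node
(`out u = none`) that asks for the linear form `query u ⬝ᵥ x` and moves to `next u` of the answer. -/
structure Program (n : ℕ) where
  size : ℕ
  start : Fin size
  out : Fin size → Option Bool
  query : Fin size → Fin n → ZMod 2
  next : Fin size → ZMod 2 → Fin size
  acyclic : ∀ u a, out u = none → u < next u a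

namespace Program

variable {n : ℕ} (B : Program n)

/-- the edges of the graph -/
def Edge (u v : Fin B.size) : Prop := B.out u = none ∧ ∃ a, B.next u a = v

/-- the span of the queries made before `u` on all paths from the start node to `u` -/
def pre (u : Fin B.size) : Submodule (ZMod 2) (Fin n → ZMod 2) :=
  Submodule.span (ZMod 2) (B.query ''
    {w | Relation.ReflTransGen B.Edge B.start w ∧ Relation.TransGen B.Edge w u})

/-- `B.Path u k`: some path from the start node to `u` passes `k` nodes `w` whose query lies in
`pre w` (repeated queries) -/
inductive Path : Fin B.size → ℕ → Prop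
  | start : Path B.start 0
  | fresh {u v : Fin B.size} {k : ℕ} : Path u k → B.Edge u v → B.query u ∉ B.pre u → Path v k
  | again {u v : Fin B.size} {k : ℕ} : Path u k → B.Edge u v → B.query u ∈ B.pre u → Path v (k + 1)

/-- at most `s` repeated queries on every path; `s = 0` means weakly read-once -/
def RepeatsAtMost (s : ℕ) : Prop := ∀ u k, B.Path u k → k ≤ s

/-- `B.Run x u b`: the computation on `x` started at `u` ends in a sink with label `b` -/
inductive Run (x : Fin n → ZMod 2) : Fin B.size → Bool → Prop
  | sink {u : Fin B.size} {b : Bool} : B.out u = some b → Run x u b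
  | step {u : Fin B.size} {b : Bool} : B.out u = none → Run x (B.next u (B.query u ⬝ᵥ x)) b →
      Run x u b

end Program

/-- the bit string of a vector -/
def word {n : ℕ} (x : Fin n → ZMod 2) : List Bool := List.ofFn fun i => decide (x i = 1)

end Pool.Agent.Lib.MP_79d702_lc.LBP
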