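import Pool.Agent.Lib.MP_79d702_lc.LBP.Lang

/-!
The choice of parameters.
-/

namespace Pool.Agent.Lib.MP_79d702_lc.LBP

open Finset

theorem sq_le_two_pow {h : ℕ} (hh : 20 ≤ h) : (33 * h) ^ 2 ≤ 2 ^ h := by
  induction h, hh using Nat.le_induction with
  | base => norm_num
  | succ h hh ih => rw [pow_succ 2]; nlinarith

theorem core {k : ℕ} (hk : 20 ≤ 3 ^ k) (B : Program (2 * 3 ^ k)) {s r j : ℕ}
    (hs : B.RepeatsAtMost s) (hj : 1 ≤ j) (hB : 2 * B.size ≤ 2 ^ j)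
    (A : Finset (Fin (2 * 3 ^ k) → ZMod 2)) (hA : ∀ x ∈ A, B.Run x B.start (lang (word x)))
    (hc : (1 / 2 + 1 / 2 ^ r : ℝ) * 2 ^ (2 * 3 ^ k) ≤ #A) : 2 * 3 ^ k ≤ 72 * j * (r + s) := by
  have hr : 1 ≤ r := by
    by_contra h0
    obtain rfl : r = 0 := by omega
    have h1 : (#A : ℝ) ≤ 2 ^ (2 * 3 ^ k) := by
      have := card_le_univ A
      rw [Fintype.card_fun, ZMod.card, Fintype.card_fin] at this
      exact_mod_cast this
    have : (0 : ℝ) < 2 ^ (2 * 3 ^ k) := by positivity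
    norm_num at hc
    linarith
  have hsq := sq_le_two_pow hk
  by_cases h1 : 2 * 3 ^ k < 2 * j
  · nlinarith
  set a := Nat.log 2 j with ha
  have ha1 : 2 ^ a ≤ j := Nat.pow_log_le_self 2 (by omega)
  have ha2 : j < 2 ^ (a + 1) := Nat.lt_pow_succ_log_self one_lt_two j
  have ha3 : a < 2 ^ a := Nat.lt_two_pow_self
  by_cases h2 : 2 * 3 ^ k ≤ a + 4 + 2 * r
  · nlinarith
  have h3 := B.main_ineq hs (δ := 1 / 2 ^ r) (m := a + 4 + 2 * r) (by positivity) (by positivity)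
    (lang_ext (le_trans (by gcongr; norm_num) hsq) (not_lt.1 h1)) hj
    (ha2.le.trans (Nat.pow_le_pow_right two_pos (by omega))) (not_le.1 h2) a A hA (by
      have : (0 : ℝ) ≤ 1 / 2 ^ r * 2 ^ (2 * 3 ^ k) := by positivity
      linarith)
  generalize 3 ^ k = h at *
  have hB' : 2 * (B.size : ℝ) ≤ 2 ^ j := by exact_mod_cast hB
  set E := 2 ^ a - 1 + 2 * j * (a + 4 + 2 * r + s + 1 - a) with hE
  have h4 : (3 * j / 2 ^ (a + 4 + 2 * r) : ℝ) ≤ (1 / 2 ^ r) ^ 2 / 2 := by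
    have : (j : ℝ) ≤ 2 ^ (a + 1) := by exact_mod_cast ha2.le
    rw [div_le_iff₀ (by positivity)]
    have e : ((1 : ℝ) / 2 ^ r) ^ 2 / 2 * 2 ^ (a + 4 + 2 * r) = 4 * 2 ^ (a + 1) := by
      rw [pow_add, pow_add, pow_mul', pow_succ 2 a]; field_simp; norm_num
    rw [e]
    have : (0 : ℝ) ≤ j := Nat.cast_nonneg j
    linarith
  have h5 : (B.size : ℝ) * (3 * j / 2 ^ (a + 4 + 2 * r)) ^ j ≤ (1 / 2 ^ r) ^ (2 * j) / 2 :=
    calc _ ≤ (2 ^ j / 2 : ℝ) * ((1 / 2 ^ r) ^ 2 / 2) ^ j := by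
          gcongr
          linarith
      _ = _ := by rw [div_pow _ (2 : ℝ), ← pow_mul]; field_simp
  have h6 : ((1 : ℝ) / 2 ^ r) ^ (2 * j) * 2 ^ (2 * h) ≤
      2 ^ j * (2 ^ E * ((33 * h : ℕ) * 2 ^ h)) := by
    have h7 := mul_le_mul_of_nonneg_left h5 (show (0 : ℝ) ≤ 2 ^ (2 * h) by positivity)
    have h8 := mul_le_mul_of_nonneg_right hB'
      (show (0 : ℝ) ≤ 2 ^ E * ((33 * h : ℕ) * 2 ^ h) by positivity)
    linarith
  rw [div_pow, one_pow, div_mul_eq_mul_div, one_mul, div_le_iff₀ (by positivity), ← pow_mul] at h6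
  have h7 : 2 ^ (2 * h) ≤ 2 ^ j * (2 ^ E * (33 * h * 2 ^ h)) * 2 ^ (r * (2 * j)) := by
    exact_mod_cast h6
  have h8 : 2 ^ (4 * h) ≤ 2 ^ (2 * (j + E + r * (2 * j)) + 3 * h) :=
    calc 2 ^ (4 * h) = (2 ^ (2 * h)) ^ 2 := by ring
      _ ≤ (2 ^ j * (2 ^ E * (33 * h * 2 ^ h)) * 2 ^ (r * (2 * j))) ^ 2 := by gcongr
      _ = (33 * h) ^ 2 * 2 ^ (2 * (j + E + r * (2 * j)) + 2 * h) := by ring
      _ ≤ 2 ^ h * 2 ^ (2 * (j + E + r * (2 * j)) + 2 * h) := by gcongr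
      _ = _ := by ring
  have h9 := (Nat.pow_le_pow_iff_right one_lt_two).1 h8
  have h10 : E ≤ j + 2 * j * (5 + 2 * r + s) := by
    rw [hE, show a + 4 + 2 * r + s + 1 - a = 5 + 2 * r + s by omega]
    omega
  nlinarith [Nat.mul_le_mul_left j hr, Nat.zero_le (j * s)]

theorem final : ∃ L ∈ N68a2faeb.P, ∃ c : ℝ, 0 < c ∧ ∀ N : ℕ, ∃ n ≥ N,
    ∀ (B : Program n) (s r : ℕ), B.RepeatsAtMost s →
      (1 / 2 + 1 / 2 ^ r : ℝ) * 2 ^ n ≤ Nat.card {x // B.Run x B.start (L (word x))} →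
      (2 : ℝ) ^ (c * n / (r + s)) ≤ 2 * B.size := by
  classical
  refine ⟨lang, lang_P, 1 / 144, by norm_num, fun N => ?_⟩
  obtain ⟨k, hk, hN⟩ : ∃ k, 20 ≤ 3 ^ k ∧ N ≤ 2 * 3 ^ k := ⟨N + 20, by
    have := Nat.lt_pow_self (n := N + 20) (show 1 < 3 by norm_num)
    omega⟩
  refine ⟨2 * 3 ^ k, hN, fun B s r hs hc => ?_⟩
  have hS : 0 < B.size := B.start.pos
  set j := Nat.clog 2 B.size with hj
  have h1 := core hk B hs (j := j + 1) (r := r) (by omega)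
    (by rw [pow_succ']; exact Nat.mul_le_mul_left _ (Nat.le_pow_clog one_lt_two _))
    (univ.filter fun x => B.Run x B.start (lang (word x))) (fun x hx => (mem_filter.1 hx).2)
    (by rwa [Nat.card_eq_fintype_card, Fintype.card_subtype] at hc)
  have h2 : (1 / 144 * (2 * 3 ^ k : ℕ) / (r + s) : ℝ) ≤ (j + 1) / 2 := by
    refine div_le_of_le_mul₀ (by positivity) (by positivity) ?_
    have : ((2 * 3 ^ k : ℕ) : ℝ) ≤ 72 * (j + 1) * (r + s) := by exact_mod_cast h1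
    linarith
  refine (Real.rpow_le_rpow_of_exponent_le one_le_two h2).trans ?_
  have hS' : (1 : ℝ) ≤ B.size := by exact_mod_cast hS
  rcases Nat.eq_zero_or_pos j with h0 | h0
  · refine (Real.rpow_le_rpow_of_exponent_le (z := 1) one_le_two (by rw [h0]; norm_num)).trans ?_
    rw [Real.rpow_one]; linarith
  · have h3 : (1 : ℝ) ≤ j := by exact_mod_cast h0
    refine (Real.rpow_le_rpow_of_exponent_le (z := j) one_le_two (by linarith)).trans ?_
    have h4 : 1 < B.size := by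
      by_contra h
      rw [show B.size = 1 by omega, Nat.clog_one_right] at hj
      omega
    have h5 := Nat.pow_pred_clog_lt_self one_lt_two h4
    rw [Real.rpow_natCast]
    have h6 : 2 ^ j ≤ 2 * B.size := by
      rw [← hj, Nat.pred_eq_sub_one] at h5
      have : 2 ^ j = 2 ^ (j - 1) * 2 := by rw [← pow_succ, Nat.sub_add_cancel h0]
      omega
    exact_mod_cast h6

end Pool.Agent.Lib.MP_79d702_lc.LBP
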