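import Pool.Agent.Lib.MP_79d702_lc.LBP.Cut

/-!
The moment estimate and the main inequality.
-/

namespace Pool.Agent.Lib.MP_79d702_lc.LBP

open Finset Module

theorem card_small {α : Type} [DecidableEq α] (C : Finset α) (j : ℕ) (hj : j ≤ #C) :
    (#{z ∈ Fintype.piFinset (fun _ : Fin (2 * j) => C) | ¬ ∃ i, ∀ i', z i' = z i → i' = i} : ℝ) ≤
      (3 * j * #C) ^ j := by
  have h1 : {z ∈ Fintype.piFinset (fun _ : Fin (2 * j) => C) | ¬ ∃ i, ∀ i', z i' = z i → i' = i} ⊆
      (powersetCard j C).biUnion fun I => Fintype.piFinset fun _ : Fin (2 * j) => I := by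
    intro z hz
    obtain ⟨hz1, hz2⟩ := mem_filter.1 hz
    push Not at hz2
    have h2 : #(univ.image z) ≤ j := by
      have h3 := card_eq_sum_card_image z univ
      have h4 : #(univ.image z) • 2 ≤ ∑ b ∈ univ.image z, #{a | z a = b} := by
        refine card_nsmul_le_sum _ _ _ fun b hb => ?_
        obtain ⟨i, -, rfl⟩ := mem_image.1 hb
        obtain ⟨i', h5, h6⟩ := hz2 i
        exact one_lt_card.2 ⟨i', by simpa using h5, i, by simp, h6⟩
      rw [card_univ, Fintype.card_fin] at h3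
      rw [smul_eq_mul] at h4
      omega
    obtain ⟨I, h3, h4, h5⟩ := exists_subsuperset_card_eq (s := univ.image z) (t := C)
      (fun b hb => by
        obtain ⟨i, -, rfl⟩ := mem_image.1 hb
        exact Fintype.mem_piFinset.1 hz1 i) h2 hj
    exact mem_biUnion.2 ⟨I, mem_powersetCard.2 ⟨h4, h5⟩,
      Fintype.mem_piFinset.2 fun i => h3 (mem_image_of_mem _ (mem_univ i))⟩
  have h2 := (card_le_card h1).trans (card_biUnion_le_card_mul _ _ (j ^ (2 * j)) fun I hI => by
    rw [Fintype.card_piFinset_const, (mem_powersetCard.1 hI).2])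
  rw [card_powersetCard] at h2
  have h3 : ((#C).choose j : ℝ) ≤ (#C : ℝ) ^ j / j.factorial := Nat.choose_le_pow_div j _
  have h4 : (j : ℝ) ^ j / j.factorial ≤ 3 ^ j := by
    refine (Real.pow_div_factorial_le_exp _ (Nat.cast_nonneg j) j).trans ?_
    rw [← Real.exp_one_pow]
    exact pow_le_pow_left₀ (Real.exp_pos 1).le (Real.exp_one_lt_d9.le.trans (by norm_num)) j
  calc _ ≤ (((#C).choose j * j ^ (2 * j) : ℕ) : ℝ) := by exact_mod_cast h2
    _ ≤ (#C : ℝ) ^ j / j.factorial * j ^ (2 * j) := by push_cast; gcongr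
    _ = (j : ℝ) ^ j / j.factorial * (j * #C) ^ j := by rw [two_mul, pow_add, mul_pow]; ring
    _ ≤ 3 ^ j * (j * #C) ^ j := by gcongr
    _ = _ := by rw [← mul_pow, mul_assoc]

variable {n : ℕ}

/-- products of `t` shifts have small Fourier coefficients unless the shifts pair up -/
def Ext (χ : (Fin n → ZMod 2) → ℝ) (t : ℕ) (β : ℝ) : Prop :=
  ∀ z : Fin t → Fin n → ZMod 2, (∃ i, ∀ i', z i' = z i → i' = i) →
    Flat (fun x => ∏ i, χ (x + z i)) β

namespace Program

variable (B : Program n)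

theorem moment {χ : (Fin n → ZMod 2) → ℝ} (hχ : ∀ x, |χ x| ≤ 1) {j : ℕ} {β : ℝ} (hβ : 0 ≤ β)
    (hE : Ext χ (2 * j) β) (h a : ℕ) (u : Fin B.size) (C : Finset (Fin n → ZMod 2)) (hj : j ≤ #C) :
    ∑ x, (∑ z ∈ C, χ (x + z) * B.val h u (x + z)) ^ (2 * j) ≤
      2 ^ n * (3 * j * #C) ^ j + #C ^ (2 * j) * (2 ^ (2 ^ a - 1 + 2 * j * (h - a)) * β) := by
  classical
  simp only [sum_pow']
  rw [sum_comm, ← sum_filter_add_sum_filter_not _ fun z => ∃ i, ∀ i', z i' = z i → i' = i,
    add_comm]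
  refine add_le_add ?_ ?_
  · refine (sum_le_card_nsmul _ _ (2 ^ n) fun z _ => ?_).trans ?_
    · refine (sum_le_card_nsmul _ _ 1 fun x _ => (le_abs_self _).trans ?_).trans (by simp)
      rw [abs_prod]
      refine prod_le_one (fun _ _ => abs_nonneg _) fun i _ => ?_
      rw [abs_mul]
      exact mul_le_one₀ (hχ _) (abs_nonneg _) (B.abs_val _ _ _)
    · rw [nsmul_eq_mul, mul_comm]
      exact mul_le_mul_of_nonneg_left (card_small C j hj) (by positivity)
  · refine (sum_le_card_nsmul _ _ (2 ^ (2 ^ a - 1 + 2 * j * (h - a)) * β) fun z hz => ?_).trans ?_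
    · have := B.nrm_prod z h a u univ _ _ (hE z (mem_filter.1 hz).2)
      rw [card_univ, Fintype.card_fin] at this
      simp only [prod_mul_distrib]
      exact (le_abs_self _).trans this
    · rw [nsmul_eq_mul]
      refine mul_le_mul_of_nonneg_right ?_ (by positivity)
      have := card_filter_le (Fintype.piFinset fun _ : Fin (2 * j) => C)
        fun z => ∃ i, ∀ i', z i' = z i → i' = i
      rw [Fintype.card_piFinset_const] at this
      exact_mod_cast this

theorem corr_le {s : ℕ} (hs : B.RepeatsAtMost s) (f : (Fin n → ZMod 2) → Bool) (m : ℕ)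
    (A : Finset (Fin n → ZMod 2)) (hA : ∀ x ∈ A, B.Run x B.start (f x)) :
    2 * (#A : ℝ) - 2 ^ n ≤
      ∑ x, sgnB (f x) * B.val (m + s + 1) (B.cut m B.size B.start x) x := by
  classical
  have h1 : ∀ x, 2 * (if x ∈ A then (1 : ℝ) else 0) - 1 ≤
      sgnB (f x) * B.val (m + s + 1) (B.cut m B.size B.start x) x := by
    intro x
    split_ifs with hx
    · rw [B.val_cut hs m _ x _ _ 0 .start (by omega) (hA x hx), sgnB_mul_self]; norm_num
    · have := neg_abs_le (sgnB (f x) * B.val (m + s + 1) (B.cut m B.size B.start x) x)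
      rw [abs_mul, abs_sgnB] at this
      have := B.abs_val (m + s + 1) (B.cut m B.size B.start x) x
      linarith
  refine le_trans (le_of_eq ?_) (sum_le_sum fun x _ => h1 x)
  rw [sum_sub_distrib, ← mul_sum]
  simp

theorem main_ineq {s : ℕ} (hs : B.RepeatsAtMost s) {f : (Fin n → ZMod 2) → Bool} {j m : ℕ}
    {β δ : ℝ} (hβ : 0 ≤ β) (hδ : 0 ≤ δ) (hE : Ext (fun x => sgnB (f x)) (2 * j) β) (hj : 1 ≤ j)
    (hjm : j ≤ 2 ^ m) (hm : m < n) (a : ℕ) (A : Finset (Fin n → ZMod 2))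
    (hA : ∀ x ∈ A, B.Run x B.start (f x)) (hc : δ * 2 ^ n ≤ 2 * (#A : ℝ) - 2 ^ n) :
    δ ^ (2 * j) * 2 ^ n ≤ B.size * (2 ^ n * (3 * j / 2 ^ m) ^ j +
      2 ^ (2 ^ a - 1 + 2 * j * (m + s + 1 - a)) * β) := by
  classical
  set e := B.cut m B.size B.start with he
  set Av : Fin B.size → (Fin n → ZMod 2) → ℝ := fun u x =>
    (∑ z ∈ B.inv u, sgnB (f (x + z)) * B.val (m + s + 1) u (x + z)) / #(B.inv u) with hAv
  have h1 : δ * 2 ^ n ≤ ∑ x, |Av (e x) x| := by
    refine hc.trans ((B.corr_le hs f m A hA).trans ?_)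
    rw [B.sum_cut m fun u x => sgnB (f x) * B.val (m + s + 1) u x]
    exact sum_le_sum fun x _ => le_abs_self _
  obtain ⟨t, ht⟩ : ∃ t, 2 * j = t + 1 := ⟨2 * j - 1, by omega⟩
  have h2 := pow_sum_div_card_le_sum_pow (s := univ) (f := fun x => |Av (e x) x|)
    (fun _ _ => abs_nonneg _) t
  have hcard : (#(univ : Finset (Fin n → ZMod 2)) : ℝ) = 2 ^ n := by simp
  rw [hcard] at h2
  have h3 : δ ^ (2 * j) * 2 ^ n ≤ ∑ x, Av (e x) x ^ (2 * j) := by
    simp only [← (even_two_mul j).pow_abs (Av _ _)]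
    rw [ht]
    refine le_trans ?_ h2
    rw [le_div_iff₀ (by positivity), mul_assoc, ← pow_succ', ← mul_pow]
    exact pow_le_pow_left₀ (by positivity) h1 _
  have hg : ∀ x, B.Good m (e x) := fun x => B.cut_good m _ x _ (by
    unfold Good; rw [B.pre_start, finrank_bot]; omega)
  have h4 : ∑ x, Av (e x) x ^ (2 * j) ≤ ∑ u with B.Good m u, ∑ x, Av u x ^ (2 * j) := by
    rw [sum_comm]
    exact sum_le_sum fun x _ => single_le_sum (f := fun u => Av u x ^ (2 * j))
      (fun u _ => (even_two_mul j).pow_nonneg _) (mem_filter.2 ⟨mem_univ _, hg x⟩)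
  refine h3.trans (h4.trans ((sum_le_card_nsmul _ _ (2 ^ n * (3 * j / 2 ^ m) ^ j +
      2 ^ (2 ^ a - 1 + 2 * j * (m + s + 1 - a)) * β) fun u hu => ?_).trans ?_))
  · have h5 := B.card_inv (mem_filter.1 hu).2
    have h6 := B.moment (fun x => (abs_sgnB (f x)).le) hβ hE (m + s + 1) a u (B.inv u)
      (hjm.trans h5)
    have h7 : (2 : ℝ) ^ m ≤ #(B.inv u) := by exact_mod_cast h5
    have h8 : (0 : ℝ) < #(B.inv u) := lt_of_lt_of_le (by positivity) h7
    simp only [hAv, div_pow]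
    rw [← sum_div, div_le_iff₀ (by positivity)]
    refine h6.trans ?_
    rw [add_mul, mul_comm _ ((#(B.inv u) : ℝ) ^ (2 * j)), mul_comm _ ((#(B.inv u) : ℝ) ^ (2 * j))]
    refine add_le_add ?_ le_rfl
    rw [mul_left_comm, ← div_pow, pow_mul, ← mul_pow]
    refine mul_le_mul_of_nonneg_left (pow_le_pow_left₀ (by positivity) ?_ _) (by positivity)
    rw [← mul_div_assoc, le_div_iff₀ (by positivity)]
    calc _ ≤ 3 * j * (#(B.inv u) : ℝ) * #(B.inv u) := by gcongr
      _ = _ := by ring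
  · rw [nsmul_eq_mul]
    refine mul_le_mul_of_nonneg_right ?_ (by positivity)
    have := card_filter_le (univ : Finset (Fin B.size)) (B.Good m)
    rw [card_univ, Fintype.card_fin] at this
    exact_mod_cast this

end Program

end Pool.Agent.Lib.MP_79d702_lc.LBP
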