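import Pool.Agent.Lib.MP_79d702_lc.LBP.Norm
import Pool.Agent.Lib.MP_639284_nt.RH

/-!
Additive character sums of polynomials in characteristic two.
-/

namespace Pool.Agent.Lib.MP_79d702_lc.LBP

open Polynomial Finset Module
open Pool.Agent.Lib.MP_639284_nt

variable {F : Type} [Field F]

theorem deg_add_ne {P Q : F[X]} (h : P ≠ 0 → Q ≠ 0 → P.natDegree ≠ Q.natDegree) :
    (P + Q).degree = max P.degree Q.degree := by
  rcases eq_or_ne P 0 with rfl | hP
  · simp
  rcases eq_or_ne Q 0 with rfl | hQ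
  · simp
  rcases lt_or_gt_of_ne (h hP hQ) with h1 | h1
  · rw [degree_add_eq_right_of_degree_lt (degree_lt_degree h1),
      max_eq_right (degree_lt_degree h1).le]
  · rw [degree_add_eq_left_of_degree_lt (degree_lt_degree h1), max_eq_left (degree_lt_degree h1).le]

theorem degree_expand_two (a : F[X]) : (expand F 2 a).degree = (a * a).degree := by
  rcases eq_or_ne a 0 with rfl | ha
  · simp
  · rw [degree_eq_natDegree ((expand_ne_zero two_pos).2 ha), degree_eq_natDegree (mul_ne_zero ha ha),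
      natDegree_expand, natDegree_mul ha ha, mul_two]

/-- the pole order model for `y ^ 2 = R + y` -/
noncomputable def pol (R : F[X]) : QuadraticAlgebra F[X] R 1 →ₗ[F] F[X] where
  toFun u := expand F 2 u.re + X ^ R.natDegree * expand F 2 u.im
  map_add' u v := by simp; ring
  map_smul' c u := by simp

variable {R : F[X]}

theorem degree_pol (hd : Odd R.natDegree) (u : QuadraticAlgebra F[X] R 1) :
    (pol R u).degree = max (u.re * u.re).degree (R.natDegree + (u.im * u.im).degree) := by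
  change (expand F 2 u.re + X ^ R.natDegree * expand F 2 u.im).degree = _
  rw [deg_add_ne, degree_mul, degree_expand_two, degree_expand_two, degree_X_pow]
  intro _ h2
  rw [natDegree_mul (left_ne_zero_of_mul h2) (right_ne_zero_of_mul h2), natDegree_expand,
    natDegree_expand, natDegree_X_pow]
  obtain ⟨c, hc⟩ := hd
  omega

theorem pol_cases (hd : Odd R.natDegree) (u : QuadraticAlgebra F[X] R 1) (hu : u ≠ 0) :
    (u.im = 0 ∧ (pol R u).degree = (2 * u.re.natDegree : ℕ)) ∨
      (u.im ≠ 0 ∧ (pol R u).degree =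
        (max (2 * u.re.natDegree) (2 * u.im.natDegree + R.natDegree) : ℕ)) := by
  rw [degree_pol hd]
  by_cases h1 : u.im = 0
  · have h2 : u.re ≠ 0 := fun h => hu (by ext1 <;> simp [h, h1])
    refine Or.inl ⟨h1, ?_⟩
    rw [h1, degree_eq_natDegree (mul_ne_zero h2 h2), natDegree_mul h2 h2, two_mul]
    simp
  · refine Or.inr ⟨h1, ?_⟩
    rw [degree_eq_natDegree (mul_ne_zero h1 h1), natDegree_mul h1 h1]
    by_cases h2 : u.re = 0
    · rw [h2]
      simp only [mul_zero, degree_zero, natDegree_zero, bot_le, max_eq_right, zero_le]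
      push_cast
      ring
    · rw [degree_eq_natDegree (mul_ne_zero h2 h2), natDegree_mul h2 h2, two_mul, two_mul,
        add_comm _ R.natDegree]
      rfl

theorem degree_norm (hd : Odd R.natDegree) (u : QuadraticAlgebra F[X] R 1) :
    (pol R u).degree = u.norm.degree := by
  have hR : R ≠ 0 := by rintro rfl; simp at hd
  have e : u.norm = (u.re * u.re + -(R * (u.im * u.im))) + u.re * u.im := by
    rw [QuadraticAlgebra.norm_def]; ring
  have e1 : (u.re * u.re + -(R * (u.im * u.im))).degree = (pol R u).degree := by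
    rw [degree_pol hd, deg_add_ne, degree_neg, degree_mul (p := R), degree_eq_natDegree hR]
    intro h1 h2
    have h3 := right_ne_zero_of_mul (neg_ne_zero.1 h2)
    rw [natDegree_neg, natDegree_mul hR h3, natDegree_mul (left_ne_zero_of_mul h1)
      (left_ne_zero_of_mul h1), natDegree_mul (left_ne_zero_of_mul h3) (left_ne_zero_of_mul h3)]
    obtain ⟨c, hc⟩ := hd
    omega
  rw [e, ← e1]
  rcases eq_or_ne (u.re * u.im) 0 with h0 | h0
  · rw [h0, add_zero]
  have h1 := left_ne_zero_of_mul h0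
  have h2 := right_ne_zero_of_mul h0
  refine (degree_add_eq_left_of_degree_lt ?_).symm
  rcases pol_cases hd u (by rintro rfl; simp at h1) with ⟨h, -⟩ | ⟨-, h⟩
  · exact absurd h h2
  rw [e1, h, degree_eq_natDegree h0, natDegree_mul h1 h2, Nat.cast_lt]
  have := hd.pos
  omega

/-- the pole order at infinity -/
noncomputable def str (hd : Odd R.natDegree) : DegStr F (QuadraticAlgebra F[X] R 1) where
  φ := pol R
  inj := (injective_iff_map_eq_zero _).2 fun u hu => by
    by_contra h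
    rcases pol_cases hd u h with ⟨-, h⟩ | ⟨-, h⟩ <;> rw [hu] at h <;>
      exact WithBot.natCast_ne_bot _ h.symm
  one := by change expand F 2 1 + X ^ R.natDegree * expand F 2 0 = 1; simp
  mul a b := by simp only [degree_norm hd, map_mul, degree_mul]
  G := (range R.natDegree).filter Odd
  gap n := by
    obtain ⟨c, hc⟩ := id hd
    simp only [mem_filter, mem_range, not_and, Nat.odd_iff]
    constructor
    · intro hn
      rcases Nat.even_or_odd' n with ⟨j, rfl | rfl⟩
      · refine ⟨⟨X ^ j, 0⟩, ?_⟩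
        rw [degree_pol hd]
        simp only [mul_zero, degree_zero, WithBot.add_bot, bot_le, max_eq_left]
        rw [← pow_add, degree_X_pow, two_mul]
      · obtain ⟨i, rfl⟩ : ∃ i, j = i + c := ⟨j - c, by omega⟩
        refine ⟨⟨0, X ^ i⟩, ?_⟩
        rw [degree_pol hd]
        simp only [mul_zero, degree_zero, bot_le, max_eq_right]
        rw [← pow_add, degree_X_pow, hc]
        push_cast
        ring
    · rintro ⟨a, ha⟩
      have h0 : a ≠ 0 := by rintro rfl; simp at ha
      rcases pol_cases hd a h0 with ⟨-, h⟩ | ⟨-, h⟩ <;> rw [h, Nat.cast_inj] at ha <;> omega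

/-- evaluation at a point of the curve -/
noncomputable def evalAt (R : F[X]) (x y : F) (h : y * y = R.eval x + y) :
    QuadraticAlgebra F[X] R 1 →ₐ[F] F where
  toFun u := u.re.eval x + u.im.eval x * y
  map_one' := by simp [QuadraticAlgebra.re_one, QuadraticAlgebra.im_one]
  map_mul' u v := by
    simp only [QuadraticAlgebra.re_mul, QuadraticAlgebra.im_mul, eval_add, eval_mul, eval_one]
    linear_combination -(u.im.eval x * v.im.eval x) * h
  map_zero' := by simp
  map_add' u v := by simp; ring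
  commutes' c := by
    change (C c).eval x + (0 : F[X]).eval x * y = c
    simp

variable [Fintype F] [DecidableEq F] [CharP F 2]

theorem two_card_le {h D : ℕ} (hF : Fintype.card F = (2 ^ h) ^ 2) (hd : Odd R.natDegree)
    (hD : R.natDegree ≤ D) (hh : D ^ 2 + 3 * D + 1 < 2 ^ h) :
    2 * #{x : F | ∃ y, y ^ 2 + y = R.eval x} ≤ (2 ^ h) ^ 2 + (2 * D + 1) * 2 ^ h := by
  have hG : #(str hd).G ≤ D := (card_filter_le _ _).trans (by simpa using hD)
  obtain ⟨h1, h2⟩ := rh F _ F (str hd) 2 h LinearMap.id (fun _ => le_rfl)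
    (lt_of_le_of_lt (by gcongr) hh)
  refine le_trans ?_ (h2.trans (by gcongr))
  set S : Finset F := {x : F | ∃ y, y ^ 2 + y = R.eval x}
  have h3 : ∀ x : S, ∃ y, y ^ 2 + y = R.eval x.1 := fun x => (mem_filter.1 x.2).2
  choose y hy using h3
  have h4 : ∀ (x : S) (b : Bool), (y x + b.toNat) * (y x + b.toNat) =
      R.eval x.1 + (y x + b.toNat) := by
    intro x b
    have h2 : (2 : F) = 0 := CharTwo.two_eq_zero
    cases b
    · simp only [Bool.toNat_false, Nat.cast_zero]
      linear_combination hy x - y x * h2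
    · simp only [Bool.toNat_true, Nat.cast_one]
      linear_combination hy x
  have := h1.to_subtype
  have h5 := Nat.card_le_card_of_injective (α := S × Bool)
    (β := Fix F F ((2 ^ h) ^ 2) (LinearMap.id : _ →ₗ[F] QuadraticAlgebra F[X] R 1))
    (fun p => ⟨evalAt R p.1.1 _ (h4 p.1 p.2), fun u => by
      rw [← hF, FiniteField.pow_card]; rfl⟩) (by
      rintro ⟨a, b⟩ ⟨a', b'⟩ e
      have e1 := Subtype.mk.inj e
      have e2 := DFunLike.congr_fun e1 ⟨X, 0⟩
      have e3 := DFunLike.congr_fun e1 ⟨0, 1⟩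
      simp only [evalAt, AlgHom.coe_mk, RingHom.coe_mk, MonoidHom.coe_mk, OneHom.coe_mk, eval_X,
        eval_zero, zero_mul, add_zero, eval_one, one_mul, zero_add] at e2 e3
      obtain rfl : a = a' := Subtype.ext e2
      rw [add_right_inj] at e3
      cases b <;> cases b' <;> simp_all)
  rw [Nat.card_prod, Nat.card_eq_finsetCard, Nat.card_coe_set_eq] at h5
  simpa [mul_comm] using h5

variable [Algebra (ZMod 2) F]

theorem exists_tau : ∃ τ : F →ₗ[ZMod 2] ZMod 2, (∀ a, τ a = 0 ↔ ∃ y, y ^ 2 + y = a) ∧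
    (∃ a, τ a = 1) ∧ ∀ l : F →ₗ[ZMod 2] ZMod 2, ∃ c, ∀ x, l x = τ (c * x) := by
  have h01 : ∀ c : ZMod 2, c = 0 ∨ c = 1 := by decide
  let P : F →ₗ[ZMod 2] F :=
    { toFun := fun y => y ^ 2 + y
      map_add' := fun a b => by rw [CharTwo.add_sq]; ring
      map_smul' := fun c a => by rcases h01 c with rfl | rfl <;> simp }
  have h1 : LinearMap.range P < ⊤ := lt_top_iff_ne_top.2 fun h => by
    have := Finite.injective_iff_surjective.2 (LinearMap.range_eq_top.1 h)
    exact one_ne_zero (this (a₁ := 1) (a₂ := 0) (by simp [P, CharTwo.add_self_eq_zero]))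
  obtain ⟨τ, h2, h3⟩ := Submodule.exists_le_ker_of_lt_top _ h1
  obtain ⟨a, ha⟩ : ∃ a, τ a = 1 := by
    by_contra h
    exact h2 (LinearMap.ext fun a => (h01 (τ a)).resolve_right fun h0 => h ⟨a, h0⟩)
  have h4 : LinearMap.ker P ≤ Submodule.span (ZMod 2) {1} := fun y hy => by
    have h5 : y * (y + 1) = 0 := by rw [← LinearMap.mem_ker.1 hy]; simp [P]; ring
    rcases mul_eq_zero.1 h5 with rfl | h5
    · exact zero_mem _
    · rw [CharTwo.add_eq_zero.1 h5]; exact Submodule.mem_span_singleton_self _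
  have h5 := (Submodule.finrank_mono h4).trans (finrank_span_le_card (R := ZMod 2) ({1} : Set F))
  have h6 := LinearMap.finrank_range_add_finrank_ker P
  have h7 := Submodule.finrank_lt (s := LinearMap.ker τ) fun h => h2 (LinearMap.ker_eq_top.1 h)
  have h8 := Submodule.eq_of_le_of_finrank_le h3 (by simp at h5; omega)
  refine ⟨τ, fun b => by rw [← LinearMap.mem_ker, ← h8]; rfl, ⟨a, ha⟩, fun l => ?_⟩
  let T : F →ₗ[ZMod 2] Dual (ZMod 2) F := (LinearMap.mul (ZMod 2) F).compr₂ τ
  have h9 : Function.Injective T := (injective_iff_map_eq_zero _).2 fun c hc => by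
    by_contra h0
    have := LinearMap.congr_fun hc (c⁻¹ * a)
    simp [T, h0, ha] at this
  obtain ⟨c, rfl⟩ := (LinearMap.injective_iff_surjective_of_finrank_eq_finrank
    Subspace.dual_finrank_eq.symm).1 h9 l
  exact ⟨c, fun x => rfl⟩

variable {τ : F →ₗ[ZMod 2] ZMod 2}

theorem weil_odd (h1 : ∀ a, τ a = 0 ↔ ∃ y, y ^ 2 + y = a) (h2 : ∃ a, τ a = 1) {h D : ℕ}
    (hF : Fintype.card F = (2 ^ h) ^ 2) (hd : Odd R.natDegree) (hD : R.natDegree ≤ D)
    (hh : D ^ 2 + 3 * D + 1 < 2 ^ h) :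
    |∑ x, sgn (τ (R.eval x))| ≤ (2 * D + 1) * 2 ^ h := by
  obtain ⟨a, ha⟩ := h2
  have e1 := two_card_le hF hd hD hh
  have e2 := two_card_le (R := R + C a) hF (by rwa [natDegree_add_C]) (by rwa [natDegree_add_C]) hh
  have h01 : ∀ c : ZMod 2, c + 1 = 0 ↔ ¬ c = 0 := by decide
  simp only [← h1, eval_add, eval_C, map_add, ha, h01] at e1 e2
  have e3 := card_filter_add_card_filter_not (s := univ) fun x : F => τ (R.eval x) = 0
  rw [card_univ, hF] at e3
  simp only [sgn, sum_ite, sum_const, nsmul_eq_mul, mul_one, mul_neg]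
  have e1' := (Nat.cast_le (α := ℝ)).2 e1
  have e2' := (Nat.cast_le (α := ℝ)).2 e2
  have e3' := congrArg (Nat.cast : ℕ → ℝ) e3
  push_cast at e1' e2' e3'
  rw [abs_le]
  constructor <;> linarith

omit [DecidableEq F] in
theorem reduce (h1 : ∀ a, τ a = 0 ↔ ∃ y, y ^ 2 + y = a) {e : ℕ} (he : Odd e) (h0 : R.coeff e ≠ 0)
    (h2 : ∀ i, Odd i → e < i → R.coeff i = 0) (h3 : R.natDegree < 2 * e) :
    ∃ R' : F[X], R'.natDegree = e ∧ ∀ x, τ (R'.eval x) = τ (R.eval x) := by
  have : Fact (Nat.Prime 2) := ⟨Nat.prime_two⟩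
  have : ExpChar F 2 := ExpChar.prime Nat.prime_two
  set E := (contract 2 R).map (frobeniusEquiv F 2).symm.toRingHom with hE
  have h4 : expand F 2 (contract 2 R) = E ^ 2 := polynomial_expand_eq F 2 _
  have h5 : ∀ i, e ≤ i → (R - E ^ 2 + E).coeff i = if Odd i then R.coeff i else 0 := by
    intro i hi
    rw [coeff_add, coeff_sub, ← h4, coeff_expand two_pos, hE, coeff_map, coeff_contract two_ne_zero,
      coeff_contract two_ne_zero, coeff_eq_zero_of_natDegree_lt (n := i * 2) (by omega), map_zero,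
      add_zero]
    by_cases h : Odd i
    · rw [if_pos h, if_neg h.not_two_dvd_nat, sub_zero]
    · have h6 := (Nat.not_odd_iff_even.1 h).two_dvd
      rw [if_neg h, if_pos h6, Nat.div_mul_cancel h6, sub_self]
  refine ⟨R - E ^ 2 + E, natDegree_eq_of_le_of_coeff_ne_zero
    (natDegree_le_iff_coeff_eq_zero.2 fun i hi => ?_) (by rwa [h5 e le_rfl, if_pos he]), fun x => ?_⟩
  · rw [h5 i hi.le]
    split_ifs with h
    · exact h2 i h hi
    · rfl
  · have := (h1 _).2 ⟨E.eval x, rfl⟩
    rw [eval_add, eval_sub, eval_pow, CharTwo.sub_eq_add, add_assoc, map_add, this, add_zero]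

omit [Fintype F] [DecidableEq F] [Algebra (ZMod 2) F] in
theorem choose_odd (ρ i : ℕ) (hi : i < 2 ^ ρ) : (((2 ^ ρ - 1).choose i : ℕ) : F) = 1 := by
  induction i with
  | zero => simp
  | succ i ih =>
    have h1 := Nat.choose_succ_succ' (2 ^ ρ - 1) i
    rw [Nat.sub_add_cancel (by omega)] at h1
    have h2 := (CharP.cast_eq_zero_iff F 2 _).2
      (Nat.prime_two.dvd_choose_pow (n := ρ) (k := i + 1) (by omega) hi.ne)
    rw [h1, Nat.cast_add, ih (by omega)] at h2
    exact (CharTwo.add_eq_zero.1 h2).symm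

theorem weil_shift (h1 : ∀ a, τ a = 0 ↔ ∃ y, y ^ 2 + y = a) (h2 : ∃ a, τ a = 1) {h ρ j : ℕ}
    (hF : Fintype.card F = (2 ^ h) ^ 2) (hh : (2 ^ ρ - 1) ^ 2 + 3 * (2 ^ ρ - 1) + 1 < 2 ^ h)
    (hj : 8 * j < 2 ^ ρ) (z : Fin (2 * j) → F) (hz : ∃ i, ∀ i', z i' = z i → i' = i) {μ : F}
    (hμ : μ ≠ 0) (c : F) :
    |∑ x, sgn (τ (μ * ∑ i, (x + z i) ^ (2 ^ ρ - 1) + c * x))| ≤
      (2 * (2 ^ ρ - 1 : ℕ) + 1) * 2 ^ h := by
  classical
  set D := 2 ^ ρ - 1 with hD
  obtain ⟨i₀, hi₀⟩ := hz
  have hex : ∃ k, k < 2 * j ∧ ∑ i, z i ^ k ≠ 0 := by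
    by_contra hcon
    push Not at hcon
    set φ : F[X] := ∏ i ∈ univ.erase i₀, (X - C (z i)) with hφ
    have hdeg : φ.natDegree < 2 * j := by
      rw [hφ, natDegree_finsetProd_X_sub_C_eq_card, card_erase_of_mem (mem_univ _), card_univ,
        Fintype.card_fin]
      have := i₀.2
      omega
    have e1 : ∑ i, φ.eval (z i) = 0 := by
      simp only [eval_eq_sum_range' hdeg]
      rw [sum_comm]
      exact sum_eq_zero fun k hk => by rw [← mul_sum, hcon k (mem_range.1 hk), mul_zero]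
    rw [sum_eq_single i₀ (fun i _ hi => by
      rw [hφ, eval_prod]
      exact prod_eq_zero (mem_erase.2 ⟨hi, mem_univ _⟩) (by simp)) (by simp), hφ, eval_prod] at e1
    obtain ⟨i, hi, e2⟩ := prod_eq_zero_iff.1 e1
    rw [eval_sub, eval_X, eval_C, sub_eq_zero] at e2
    exact (mem_erase.1 hi).1 (hi₀ i e2.symm)
  obtain ⟨k, ⟨hk1, hk2⟩, hk3⟩ : ∃ k, (k < 2 * j ∧ ∑ i, z i ^ k ≠ 0) ∧
      ∀ i < k, ∑ l, z l ^ i = 0 := ⟨Nat.find hex, Nat.find_spec hex, fun i hi => by
    by_contra h0
    exact Nat.find_min hex hi ⟨hi.trans (Nat.find_spec hex).1, h0⟩⟩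
  have hsq : ∀ i, ∑ l, z l ^ (2 * i) = (∑ l, z l ^ i) ^ 2 := fun i => by
    rw [CharTwo.sum_sq]
    exact sum_congr rfl fun l _ => by rw [mul_comm, pow_mul]
  set P : F[X] := C μ * ∑ i, (X + C (z i)) ^ D + C c * X with hP
  have hρ : Odd D := by
    rcases ρ with _ | ρ
    · omega
    · have : 0 < 2 ^ ρ := by positivity
      exact ⟨2 ^ ρ - 1, by rw [hD, pow_succ]; omega⟩
  have hc : ∀ i, 1 < i → i ≤ D → P.coeff i = μ * ∑ l, z l ^ (D - i) := by
    intro i hi hi'
    rw [hP, coeff_add, coeff_C_mul, coeff_C_mul, coeff_X, if_neg hi.ne, mul_zero, add_zero,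
      finsetSum_coeff]
    simp only [coeff_X_add_C_pow, hD, choose_odd (F := F) ρ i (by omega), mul_one]
  have hdeg : P.natDegree ≤ D := by
    refine natDegree_add_le_of_degree_le ((natDegree_C_mul_le _ _).trans
      (natDegree_sum_le_of_forall_le _ _ fun i _ => natDegree_pow_le.trans ?_))
      ((natDegree_C_mul_le _ _).trans (natDegree_X_le.trans hρ.pos))
    rw [natDegree_X_add_C, mul_one]
  obtain ⟨d, hd⟩ := id hρ
  obtain ⟨R', e1, e2⟩ := reduce (R := P) h1 (e := D - 2 * k) ⟨d - k, by omega⟩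
    (by
      rw [hc _ (by omega) (by omega), Nat.sub_sub_self (by omega), hsq]
      exact mul_ne_zero hμ (pow_ne_zero _ hk2))
    (fun i ⟨a, ha⟩ hi => by
      rcases le_or_gt i D with h3 | h3
      · rw [hc _ (by omega) h3, show D - i = 2 * (d - a) by omega, hsq, hk3 _ (by omega)]
        simp
      · exact coeff_eq_zero_of_natDegree_lt (hdeg.trans_lt h3))
    (by omega)
  have := weil_odd (R := R') (D := D) h1 h2 hF (e1 ▸ ⟨d - k, by omega⟩) (by omega) hh
  simp only [e2, hP, eval_add, eval_mul, eval_C, eval_X, eval_finsetSum, eval_pow] at this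
  exact this

end Pool.Agent.Lib.MP_79d702_lc.LBP
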