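import Pool.Agent.Shared.PolyTime
import Pool.Agent.Lib.MP_79d702_lc.LBP.Weil
import Pool.Agent.Lib.MP_79d702_lc.LBP.Moment

/-!
The hard language: the constant coefficient of `x ^ D` modulo `X ^ n + X ^ (n / 2) + 1`.
-/

namespace Pool.Agent.Lib.MP_79d702_lc.LBP

open Finset Polynomial Module Pool.Agent.Shared.PolyTime

/-- the exponent -/
def dd (n : ℕ) : ℕ := 2 ^ (n.size + 2) - 1

/-- the length of a digit -/
def bb (n : ℕ) : ℕ := n.size * dd n + 1

/-- the constant coefficient of `X ^ i` -/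
def tt (h i : ℕ) : ℕ := if i % h = 0 ∧ i / h % 3 ≠ 1 then 1 else 0

/-- the `i`-th bit as a number -/
def bit (w : List Bool) (i : ℕ) : ℕ := (w.getD i false).toNat

/-- the power of the input polynomial at a large power of two -/
def num (w : List Bool) : ℕ :=
  ((List.range w.length).map fun i => bit w i * 2 ^ (bb w.length * min i w.length)).sum ^
    dd w.length

/-- the language -/
def lang (w : List Bool) : Bool :=
  ((List.range (w.length * dd w.length + 1)).map fun i =>
    num w / 2 ^ (bb w.length * min i (w.length * dd w.length)) % 2 * tt (w.length / 2) i).sum % 2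
      == 1

theorem dd_le (n : ℕ) : dd n ≤ 8 * n + 3 := by
  unfold dd
  rcases Nat.eq_zero_or_pos n with rfl | hn
  · simp
  have h3 : 2 ^ (n.size - 1) ≤ n := Nat.lt_size.1 (by have := Nat.size_pos.2 hn; omega)
  have h4 : n.size + 2 = n.size - 1 + 3 := by have := Nat.size_pos.2 hn; omega
  rw [h4, pow_add]
  omega

section pt

variable {α : Type} [N487b59b3 α]

theorem size_pt {n : α → ℕ} (hn : PT n) : PT (fun a => (n a).size) :=
  (PT.sz hn).of_eq fun _ => sz_nat _

theorem size_pb {n : α → ℕ} (hn : PT n) : PB (fun a => (n a).size) :=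
  (PB.sz hn).mono fun _ => (sz_nat _).ge

theorem dd_pt {n : α → ℕ} (hn : PT n) : PT (fun a => dd (n a)) :=
  PT.sub (PT.pow (PT.const 2) (PT.add (size_pt hn) (PT.const 2))
    (PB.add (size_pb hn) (PB.const 2))) (PT.const 1)

theorem dd_pb {n : α → ℕ} (hb : PB n) : PB (fun a => dd (n a)) :=
  PB.mono (g := fun a => 8 * n a + 3) (by fun_prop) fun _ => dd_le _

theorem bb_pt {n : α → ℕ} (hn : PT n) : PT (fun a => bb (n a)) :=
  PT.add (PT.mul (size_pt hn) (dd_pt hn)) (PT.const 1)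

theorem bb_pb {n : α → ℕ} (hn : PT n) (hb : PB n) : PB (fun a => bb (n a)) :=
  PB.add (PB.mul (size_pb hn) (dd_pb hb)) (PB.const 1)

theorem num_pt : PT num := by
  unfold num
  refine PT.pow (PT.sum (PT.map (h := fun (w : List Bool) i =>
    bit w i * 2 ^ (bb w.length * min i w.length)) (by fun_prop) ?_)) (dd_pt (by fun_prop))
    (dd_pb (by fun_prop))
  refine PT.mul (by unfold bit; fun_prop) (PT.pow (PT.const 2)
    (PT.mul (bb_pt (by fun_prop)) (by fun_prop))
    (PB.mul (bb_pb (by fun_prop) (by fun_prop)) (PB.min_right (by fun_prop) _)))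

end pt

theorem lang_P : lang ∈ N68a2faeb.P := by
  refine PT.isPolyTime ?_
  unfold lang
  refine PT.beq (PT.mod (PT.sum (PT.map (h := fun (w : List Bool) i =>
    num w / 2 ^ (bb w.length * min i (w.length * dd w.length)) % 2 * tt (w.length / 2) i)
    (PT.range (PT.add (PT.mul (by fun_prop) (dd_pt (by fun_prop))) (PT.const 1))
      (PB.add (PB.mul (by fun_prop) (dd_pb (by fun_prop))) (PB.const 1))) ?_)) (PT.const 2))
    (PT.const 1)
  refine PT.mul (PT.mod (PT.div (num_pt.comp' (by fun_prop)) (PT.pow (PT.const 2)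
    (PT.mul (bb_pt (by fun_prop)) (PT.min (by fun_prop)
      (PT.mul (by fun_prop) (dd_pt (by fun_prop)))))
    (PB.mul (bb_pb (by fun_prop) (by fun_prop))
      (PB.min_right (PB.mul (by fun_prop) (dd_pb (by fun_prop))) _)))) (PT.const 2)) ?_
  unfold tt
  exact PT.ite (PT.decide_and (by fun_prop) (by fun_prop)) (PT.const 1) (PT.const 0)

theorem sum_map_range (n : ℕ) (f : ℕ → ℕ) : ((List.range n).map f).sum = ∑ i ∈ range n, f i := by
  induction n with
  | zero => simp
  | succ n ih => simp [List.range_succ, Finset.sum_range_succ, ih]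

theorem digit {B : ℕ} (N : ℕ) : ∀ (c : ℕ → ℕ) (i : ℕ), (∀ j, c j < B) → i < N →
    (∑ j ∈ range N, c j * B ^ j) / B ^ i % B = c i := by
  induction N with
  | zero => intro c i _ h; omega
  | succ N ih =>
    intro c i hc hi
    have hB : 0 < B := (Nat.zero_le _).trans_lt (hc 0)
    have e : ∑ j ∈ range (N + 1), c j * B ^ j = c 0 + B * ∑ j ∈ range N, c (j + 1) * B ^ j := by
      rw [sum_range_succ', mul_sum, add_comm, pow_zero, mul_one]
      congr 1
      exact sum_congr rfl fun j _ => by ring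
    rw [e]
    rcases i with _ | i
    · rw [pow_zero, Nat.div_one, Nat.add_mul_mod_self_left, Nat.mod_eq_of_lt (hc 0)]
    · rw [pow_succ', ← Nat.div_div_eq_div_mul, Nat.add_mul_div_left _ _ hB,
        Nat.div_eq_of_lt (hc 0), zero_add]
      exact ih (fun j => c (j + 1)) i (fun j => hc _) (by omega)

variable {n : ℕ}

/-- the input polynomial -/
noncomputable def ply (x : Fin n → ZMod 2) : ℕ[X] := ∑ i : Fin n, C (x i).val * X ^ (i : ℕ)

theorem natDegree_ply (x : Fin n → ZMod 2) : (ply x ^ dd n).natDegree < n * dd n + 1 := by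
  have : (ply x).natDegree ≤ n := natDegree_sum_le_of_forall_le _ _ fun i _ =>
    (natDegree_C_mul_X_pow_le _ _).trans i.2.le
  exact Nat.lt_succ_of_le (natDegree_pow_le.trans (by rw [mul_comm]; gcongr))

theorem coeff_ply (x : Fin n → ZMod 2) (i : ℕ) : (ply x ^ dd n).coeff i < 2 ^ bb n := by
  have h1 : (ply x ^ dd n).coeff i ≤ (ply x ^ dd n).eval 1 := by
    by_cases h : i < n * dd n + 1
    · rw [eval_eq_sum_range' (natDegree_ply x)]
      simp only [one_pow, mul_one]
      exact single_le_sum (f := fun j => (ply x ^ dd n).coeff j) (fun _ _ => Nat.zero_le _)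
        (mem_range.2 h)
    · rw [coeff_eq_zero_of_natDegree_lt ((natDegree_ply x).trans_le (not_lt.1 h))]
      exact Nat.zero_le _
  have h2 : (ply x).eval 1 ≤ 2 ^ n.size := by
    refine le_trans ?_ (Nat.lt_size_self n).le
    rw [ply, eval_finsetSum]
    refine (sum_le_card_nsmul _ _ 1 fun i _ => ?_).trans (by simp)
    have := (x i).val_lt
    simp only [eval_mul, eval_C, eval_pow, eval_X, one_pow, mul_one]
    omega
  rw [eval_pow] at h1
  refine (h1.trans (Nat.pow_le_pow_left h2 _)).trans_lt ?_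
  rw [← pow_mul]
  exact Nat.pow_lt_pow_right one_lt_two (Nat.lt_succ_self _)

theorem num_word (x : Fin n → ZMod 2) : num (word x) = (ply x ^ dd n).eval (2 ^ bb n) := by
  have h : ∀ c : ZMod 2, (decide (c = 1)).toNat = c.val := by decide
  rw [num, sum_map_range, eval_pow, ply, eval_finsetSum]
  simp only [word, List.length_ofFn]
  rw [sum_range]
  congr 1
  refine sum_congr rfl fun i _ => ?_
  simp [bit, List.getD_eq_getElem?_getD, h, pow_mul]

theorem lang_word (x : Fin n → ZMod 2) : lang (word x) =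
    ((∑ i ∈ range (n * dd n + 1), (ply x ^ dd n).coeff i * tt (n / 2) i) % 2 == 1) := by
  rw [lang, sum_map_range, num_word]
  simp only [word, List.length_ofFn]
  rw [sum_nat_mod, sum_nat_mod _ 2 fun i => (ply x ^ dd n).coeff i * tt (n / 2) i]
  congr 2
  refine sum_congr rfl fun i hi => ?_
  have h1 := mem_range.1 hi
  rw [min_eq_left (by omega), eval_eq_sum_range' (natDegree_ply x), pow_mul,
    ← digit _ _ i (coeff_ply x) h1, Nat.mul_mod, Nat.mul_mod (_ % 2 ^ bb n), Nat.mod_mod,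
    Nat.mod_mod_of_dvd _ (dvd_pow_self 2 (show bb n ≠ 0 from Nat.succ_ne_zero _))]

theorem orderOf_two (k : ℕ) : orderOf (2 : ZMod (3 ^ (k + 1))) = 2 * 3 ^ k := by
  have h1 := ZMod.orderOf_one_add_prime Nat.prime_three (by decide) k
  have h2 : (1 + (3 : ℕ) : ZMod (3 ^ (k + 1))) = 2 ^ 2 := by norm_num
  rw [h2, orderOf_pow' _ two_ne_zero] at h1
  have h3 : 2 ∣ orderOf (2 : ZMod (3 ^ (k + 1))) := by
    have h4 := orderOf_map_dvd (ZMod.castHom (dvd_pow_self 3 k.succ_ne_zero) (ZMod 3)).toMonoidHom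
      (2 : ZMod (3 ^ (k + 1)))
    have h5 : orderOf (2 : ZMod 3) = 2 := orderOf_eq_prime (by decide) (by decide)
    have h6 : (ZMod.castHom (dvd_pow_self 3 k.succ_ne_zero) (ZMod 3)).toMonoidHom 2 = 2 :=
      map_ofNat (ZMod.castHom (dvd_pow_self 3 k.succ_ne_zero) (ZMod 3)) 2
    rwa [h6, h5] at h4
  rw [Nat.gcd_eq_right h3] at h1
  rw [← h1, Nat.mul_div_cancel' h3]

theorem exists_field (k : ℕ) : ∃ (F : Type) (_ : Field F) (_ : Algebra (ZMod 2) F) (ζ : F)
    (b : Basis (Fin (2 * 3 ^ k)) (ZMod 2) F), (∀ i, b i = ζ ^ (i : ℕ)) ∧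
      ζ ^ (2 * 3 ^ k) + ζ ^ 3 ^ k + 1 = 0 := by
  have hd : (cyclotomic (3 ^ (k + 1)) (ZMod 2)).natDegree = 2 * 3 ^ k := by
    rw [natDegree_cyclotomic, Nat.totient_prime_pow_succ Nat.prime_three, mul_comm]
  have h3 : ¬ 2 ∣ 3 ^ (k + 1) := fun h => absurd (Nat.prime_two.dvd_of_dvd_pow h) (by decide)
  have : Fact (Irreducible (cyclotomic (3 ^ (k + 1)) (ZMod 2))) :=
    ⟨ZMod.irreducible_of_dvd_cyclotomic_of_natDegree h3 dvd_rfl (by
      rw [hd, ← orderOf_units, ZMod.coe_unitOfCoprime, Nat.cast_ofNat, orderOf_two])⟩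
  let pb := AdjoinRoot.powerBasis (cyclotomic_ne_zero (3 ^ (k + 1)) (ZMod 2))
  refine ⟨AdjoinRoot (cyclotomic (3 ^ (k + 1)) (ZMod 2)), inferInstance, inferInstance,
    AdjoinRoot.root _, pb.basis.reindex (finCongr hd), fun i => ?_, ?_⟩
  · rw [Basis.reindex_apply, pb.basis_eq_pow]; rfl
  · have := AdjoinRoot.aeval_eq (f := cyclotomic (3 ^ (k + 1)) (ZMod 2))
      (cyclotomic (3 ^ (k + 1)) (ZMod 2))
    rw [AdjoinRoot.mk_self] at this
    generalize AdjoinRoot.root (cyclotomic (3 ^ (k + 1)) (ZMod 2)) = ζ at this ⊢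
    have e := congrArg (aeval ζ) (cyclotomic_prime_pow_eq_geom_sum (R := ZMod 2) (n := k)
      Nat.prime_three)
    rw [this] at e
    simp only [sum_range_succ, sum_range_zero, map_add, map_pow, aeval_X, map_zero] at e
    rw [e]; ring

section
variable {F : Type} [Field F] [Algebra (ZMod 2) F] {h : ℕ} {ζ : F}
  {b : Basis (Fin (2 * h)) (ZMod 2) F}

theorem coord_pow (hh : 0 < h) (hb : ∀ i, b i = ζ ^ (i : ℕ)) (hζ : ζ ^ (2 * h) + ζ ^ h + 1 = 0)
    (i : ℕ) : b.coord ⟨0, by omega⟩ (ζ ^ i) = (tt h i : ZMod 2) := by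
  induction i using Nat.strong_induction_on with
  | _ i ih =>
    rcases lt_or_ge i (2 * h) with hi | hi
    · rw [← hb ⟨i, hi⟩, Basis.coord_apply, b.repr_self, Finsupp.single_apply, tt]
      simp only [Fin.mk.injEq, Nat.cast_ite, Nat.cast_one, Nat.cast_zero]
      refine if_congr ⟨by rintro rfl; simp, fun ⟨h1, h2⟩ => ?_⟩ rfl rfl
      obtain ⟨a, rfl⟩ := Nat.dvd_of_mod_eq_zero h1
      rw [Nat.mul_div_cancel_left _ hh] at h2
      have : a < 2 := by nlinarith
      obtain rfl : a = 0 := by omega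
      rfl
    · obtain ⟨i, rfl⟩ := Nat.exists_eq_add_of_le' hi
      have e : ζ ^ (i + 2 * h) = -(ζ ^ (i + h) + ζ ^ i) := by
        rw [pow_add, pow_add]; linear_combination ζ ^ i * hζ
      rw [e, map_neg, map_add, ih _ (by omega), ih _ (by omega), tt, tt, tt,
        Nat.add_mul_mod_self_right, Nat.add_mod_right, Nat.add_mul_div_right _ _ hh,
        Nat.add_div_right _ hh]
      by_cases h0 : i % h = 0
      · have : i / h % 3 = 0 ∨ i / h % 3 = 1 ∨ i / h % 3 = 2 := by omega
        rcases this with h1 | h1 | h1 <;> simp [h0, Nat.add_mod, h1]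
        decide
      · simp [h0]

theorem sgnB_lang (hh : 0 < h) (hb : ∀ i, b i = ζ ^ (i : ℕ)) (hζ : ζ ^ (2 * h) + ζ ^ h + 1 = 0)
    (x : Fin (2 * h) → ZMod 2) : sgnB (lang (word x)) =
      sgn (b.coord ⟨0, by omega⟩ (b.equivFun.symm x ^ dd (2 * h))) := by
  have e1 : b.equivFun.symm x = aeval ζ (ply x) := by
    rw [Basis.equivFun_symm_apply, ply, map_sum]
    refine sum_congr rfl fun i _ => ?_
    have h01 : ∀ c : ZMod 2, c = 0 ∨ c = 1 := by decide
    rcases h01 (x i) with h0 | h0 <;> simp [h0, hb, ZMod.val_one]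
  rw [e1, ← map_pow, aeval_eq_sum_range' (natDegree_ply x), map_sum, lang_word,
    Nat.mul_div_cancel_left _ two_pos]
  simp only [map_nsmul, coord_pow hh hb hζ]
  simp only [nsmul_eq_mul, ← Nat.cast_mul, ← Nat.cast_sum]
  generalize ∑ i ∈ range (2 * h * dd (2 * h) + 1), (ply x ^ dd (2 * h)).coeff i * tt h i = N
  rw [← ZMod.natCast_mod N 2]
  rcases Nat.mod_two_eq_zero_or_one N with h0 | h0 <;> simp [h0, sgn, sgnB]

end

theorem lang_ext {k j : ℕ} (hk : (32 * 3 ^ k) ^ 2 ≤ 2 ^ 3 ^ k) (hj : 2 * j ≤ 2 * 3 ^ k) :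
    Ext (fun x : Fin (2 * 3 ^ k) → ZMod 2 => sgnB (lang (word x))) (2 * j)
      ((33 * 3 ^ k : ℕ) * 2 ^ 3 ^ k) := by
  classical
  obtain ⟨F, _, _, ζ, b, hb, hζ⟩ := exists_field k
  have hh : 0 < 3 ^ k := by positivity
  generalize 3 ^ k = h at *
  have : Finite F := Finite.of_equiv _ b.equivFun.symm.toEquiv
  have := Fintype.ofFinite F
  have : CharP F 2 := charP_of_injective_algebraMap (algebraMap (ZMod 2) F).injective 2
  obtain ⟨τ, h1, h2, h3⟩ := exists_tau (F := F)
  obtain ⟨μ, hμ⟩ := h3 (b.coord ⟨0, by omega⟩)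
  have hμ0 : μ ≠ 0 := by
    rintro rfl
    have := hμ (b ⟨0, by omega⟩)
    simp at this
  intro z hz q
  obtain ⟨c, hc⟩ := h3 ((dotProductEquiv (ZMod 2) _ q).comp b.equivFun.toLinearMap)
  have hF : Fintype.card F = (2 ^ h) ^ 2 := by
    rw [Module.card_fintype b, ZMod.card, Fintype.card_fin, ← pow_mul, mul_comm]
  have hs := Nat.lt_size_self (2 * h)
  have hd' : dd (2 * h) ≤ 16 * h := by
    have h3 : 2 ^ ((2 * h).size - 1) ≤ 2 * h :=
      Nat.lt_size.1 (by have := Nat.size_pos.2 (show 0 < 2 * h by omega); omega)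
    have h4 : (2 * h).size + 2 = (2 * h).size - 1 + 3 := by
      have := Nat.size_pos.2 (show 0 < 2 * h by omega); omega
    rw [dd, h4, pow_add]
    omega
  have := weil_shift h1 h2 (ρ := (2 * h).size + 2) (j := j) hF
    (lt_of_lt_of_le (by change dd _ ^ 2 + 3 * dd _ + 1 < _; nlinarith) hk)
    (by rw [pow_add]; omega) (fun i => b.equivFun.symm (z i))
    (hz.imp fun i hi i' e => hi i' (b.equivFun.symm.injective e)) hμ0 c
  rw [← b.equivFun.symm.toEquiv.sum_comp] at this
  refine le_trans (le_of_eq ?_) (this.trans ?_)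
  · congr 1
    refine sum_congr rfl fun x _ => ?_
    rw [map_add, sgn_add, mul_sum, map_sum, sgn_sum, ← hc]
    congr 1
    · refine prod_congr rfl fun i _ => ?_
      beta_reduce
      rw [sgnB_lang hh hb hζ, hμ, map_add]; rfl
    · congr 1
      change _ = q ⬝ᵥ b.equivFun (b.equivFun.symm x)
      rw [LinearEquiv.apply_symm_apply]
  · have h5 : ((2 * dd (2 * h) + 1 : ℕ) : ℝ) ≤ (33 * h : ℕ) := by exact_mod_cast (by omega)
    rw [Nat.cast_add, Nat.cast_mul, Nat.cast_one, Nat.cast_ofNat] at h5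
    exact mul_le_mul_of_nonneg_right h5 (by positivity)

end Pool.Agent.Lib.MP_79d702_lc.LBP
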