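import Pool.Agent.Lib.MP_79d702_lc.LBP.Defs

/-!
Spectral norm of products of shifted parity decision trees.
-/

namespace Pool.Agent.Lib.MP_79d702_lc.LBP

open Finset

/-- the sign character -/
def sgn (a : ZMod 2) : ℝ := if a = 0 then 1 else -1

/-- the sign of a bit -/
def sgnB (b : Bool) : ℝ := if b then -1 else 1

theorem sgn_zero : sgn 0 = 1 := by simp [sgn]

theorem sgn_add (a b : ZMod 2) : sgn (a + b) = sgn a * sgn b := by
  have h : ∀ c : ZMod 2, c = 0 ∨ c = 1 := by decide
  have h1 : (1 : ZMod 2) + 1 = 0 := by decide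
  rcases h a with rfl | rfl <;> rcases h b with rfl | rfl <;> simp [sgn, h1]

theorem abs_sgn (a : ZMod 2) : |sgn a| = 1 := by unfold sgn; split_ifs <;> simp

theorem abs_sgnB (b : Bool) : |sgnB b| = 1 := by cases b <;> simp [sgnB]

theorem sgnB_mul_self (b : Bool) : sgnB b * sgnB b = 1 := by cases b <;> simp [sgnB]

theorem sgn_sum {ι : Type} (s : Finset ι) (f : ι → ZMod 2) :
    sgn (∑ i ∈ s, f i) = ∏ i ∈ s, sgn (f i) := by
  classical
  induction s using Finset.induction_on with
  | empty => simp [sgn_zero]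
  | insert a s ha ih => rw [sum_insert ha, prod_insert ha, sgn_add, ih]

variable {n : ℕ}

/-- all Fourier coefficients are at most `β` -/
def Flat (F : (Fin n → ZMod 2) → ℝ) (β : ℝ) : Prop :=
  ∀ q : Fin n → ZMod 2, |∑ x, F x * sgn (q ⬝ᵥ x)| ≤ β

/-- spectral norm at most `N`, in dual form -/
def Nrm (G : (Fin n → ZMod 2) → ℝ) (N : ℝ) : Prop :=
  ∀ F β, Flat F β → |∑ x, F x * G x| ≤ N * β

theorem Flat.nonneg {F : (Fin n → ZMod 2) → ℝ} {β : ℝ} (h : Flat F β) : 0 ≤ β :=
  (abs_nonneg _).trans (h 0)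

theorem Flat.mul_sgn {F : (Fin n → ZMod 2) → ℝ} {β : ℝ} (h : Flat F β) (p : Fin n → ZMod 2) :
    Flat (fun x => F x * sgn (p ⬝ᵥ x)) β := fun q => by
  have := h (p + q)
  simpa only [add_dotProduct, sgn_add, mul_assoc] using this

theorem Nrm.mono {G : (Fin n → ZMod 2) → ℝ} {N N' : ℝ} (h : Nrm G N) (hN : N ≤ N') : Nrm G N' :=
  fun F β hF => (h F β hF).trans (mul_le_mul_of_nonneg_right hN hF.nonneg)

theorem nrm_const {c : ℝ} (hc : |c| ≤ 1) : Nrm (n := n) (fun _ => c) 1 := fun F β hF => by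
  have := hF 0
  simp only [zero_dotProduct, sgn_zero, mul_one] at this
  rw [← sum_mul, abs_mul, one_mul]
  calc _ ≤ β * 1 := mul_le_mul this hc (abs_nonneg _) hF.nonneg
    _ = β := mul_one _

theorem Nrm.mul {G H : (Fin n → ZMod 2) → ℝ} {N M : ℝ} (hG : Nrm G N) (hH : Nrm H M) :
    Nrm (fun x => G x * H x) (N * M) := fun F β hF => by
  have h1 : Flat (fun x => F x * H x) (M * β) := fun q => by
    have := hH _ β (hF.mul_sgn q)
    simpa only [mul_right_comm _ (sgn _)] using this
  have := hG _ _ h1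
  simpa only [mul_assoc, mul_comm (H _)] using this

theorem Nrm.add {G H : (Fin n → ZMod 2) → ℝ} {N M : ℝ} (hG : Nrm G N) (hH : Nrm H M) :
    Nrm (fun x => G x + H x) (N + M) := fun F β hF => by
  simp only [mul_add, sum_add_distrib, add_mul]
  exact (abs_add_le _ _).trans (add_le_add (hG F β hF) (hH F β hF))

theorem nrm_ind (q : Fin n → ZMod 2) (b : ZMod 2) :
    Nrm (fun x => if q ⬝ᵥ x = b then 1 else 0) 1 := fun F β hF => by
  have e : ∀ a : ZMod 2, (if a = b then (1 : ℝ) else 0) = (1 + sgn b * sgn a) / 2 := by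
    intro a
    have h : ∀ c : ZMod 2, c = 0 ∨ c = 1 := by decide
    rcases h a with rfl | rfl <;> rcases h b with rfl | rfl <;> simp [sgn]
  have h0 := hF 0
  simp only [zero_dotProduct, sgn_zero, mul_one] at h0
  have h1 := hF q
  have e2 : ∑ x, F x * (if q ⬝ᵥ x = b then (1 : ℝ) else 0) =
      (∑ x, F x + sgn b * ∑ x, F x * sgn (q ⬝ᵥ x)) / 2 := by
    rw [mul_sum, ← sum_add_distrib, sum_div]
    exact sum_congr rfl fun x _ => by rw [e]; ring
  rw [e2, abs_div, abs_two]
  have := abs_add_le (∑ x, F x) (sgn b * ∑ x, F x * sgn (q ⬝ᵥ x))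
  rw [abs_mul, abs_sgn] at this
  linarith

namespace Program

variable (B : Program n)

/-- the unfolding of depth `h` from the node `u` -/
def val : ℕ → Fin B.size → (Fin n → ZMod 2) → ℝ
  | 0, u, _ => (B.out u).elim 0 sgnB
  | h + 1, u, x => (B.out u).elim (val h (B.next u (B.query u ⬝ᵥ x)) x) sgnB

theorem val_zero (u : Fin B.size) (x : Fin n → ZMod 2) :
    B.val 0 u x = (B.out u).elim 0 sgnB := rfl

theorem val_succ (h : ℕ) (u : Fin B.size) (x : Fin n → ZMod 2) :
    B.val (h + 1) u x = (B.out u).elim (B.val h (B.next u (B.query u ⬝ᵥ x)) x) sgnB := rfl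

theorem val_sink {u : Fin B.size} {b : Bool} (hu : B.out u = some b) (h : ℕ)
    (x : Fin n → ZMod 2) : B.val h u x = sgnB b := by
  cases h <;> simp [val_zero, val_succ, hu]

theorem val_step {u : Fin B.size} (hu : B.out u = none) (h : ℕ) (x : Fin n → ZMod 2) :
    B.val (h + 1) u x = B.val h (B.next u (B.query u ⬝ᵥ x)) x := by
  simp [val_succ, hu]

theorem abs_val (h : ℕ) : ∀ (u : Fin B.size) (x : Fin n → ZMod 2), |B.val h u x| ≤ 1 := by
  induction h with
  | zero =>
    intro u x
    rcases hu : B.out u with _ | b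
    · simp [val_zero, hu]
    · rw [B.val_sink hu, abs_sgnB]
  | succ h ih =>
    intro u x
    rcases hu : B.out u with _ | b
    · rw [B.val_step hu]; exact ih _ _
    · rw [B.val_sink hu, abs_sgnB]

theorem nrm_prod {ι : Type} (z : ι → Fin n → ZMod 2) (h : ℕ) : ∀ (a : ℕ) (u : Fin B.size)
    (T : Finset ι), Nrm (fun x => ∏ i ∈ T, B.val h u (x + z i))
      (2 ^ (2 ^ a - 1 + #T * (h - a))) := by
  classical
  have hc : ∀ (h a : ℕ) (u : Fin B.size) (T : Finset ι) (c : ℝ), (∀ x, B.val h u x = c) →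
      Nrm (fun x => ∏ i ∈ T, B.val h u (x + z i)) (2 ^ (2 ^ a - 1 + #T * (h - a))) := by
    intro h a u T c hc
    have h1 : |c| ≤ 1 := hc 0 ▸ B.abs_val h u 0
    simp only [hc, prod_const]
    refine (nrm_const ?_).mono (one_le_pow₀ one_le_two)
    rw [abs_pow]
    exact pow_le_one₀ (abs_nonneg _) h1
  induction h with
  | zero => exact fun a u T => hc 0 a u T _ fun x => B.val_zero u x
  | succ h ih =>
    intro a u T
    rcases hu : B.out u with _ | b
    swap
    · exact hc _ a u T _ fun x => B.val_sink hu _ x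
    rcases T.eq_empty_or_nonempty with rfl | hT
    · simp only [prod_empty]
      exact (nrm_const (by simp)).mono (one_le_pow₀ one_le_two)
    have key : ∀ b : ZMod 2, Nrm (fun x => (if B.query u ⬝ᵥ x = b then 1 else 0) *
        ((∏ i ∈ T with b + B.query u ⬝ᵥ z i = 0, B.val h (B.next u 0) (x + z i)) *
          ∏ i ∈ T with ¬ b + B.query u ⬝ᵥ z i = 0, B.val h (B.next u 1) (x + z i)))
        (2 ^ (2 * (2 ^ (a - 1) - 1) + #T * (h - (a - 1)))) := by
      intro b
      refine ((nrm_ind (B.query u) b).mul ((ih (a - 1) _ _).mul (ih (a - 1) _ _))).mono ?_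
      rw [one_mul, ← pow_add, ← card_filter_add_card_filter_not (s := T)
        (fun i => b + B.query u ⬝ᵥ z i = 0)]
      exact le_of_eq (by congr 1; ring)
    have e : (fun x => ∏ i ∈ T, B.val (h + 1) u (x + z i)) = fun x =>
        (if B.query u ⬝ᵥ x = 0 then 1 else 0) *
        ((∏ i ∈ T with 0 + B.query u ⬝ᵥ z i = 0, B.val h (B.next u 0) (x + z i)) *
          ∏ i ∈ T with ¬ 0 + B.query u ⬝ᵥ z i = 0, B.val h (B.next u 1) (x + z i)) +
        (if B.query u ⬝ᵥ x = 1 then 1 else 0) *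
        ((∏ i ∈ T with 1 + B.query u ⬝ᵥ z i = 0, B.val h (B.next u 0) (x + z i)) *
          ∏ i ∈ T with ¬ 1 + B.query u ⬝ᵥ z i = 0, B.val h (B.next u 1) (x + z i)) := by
      funext x
      have h01 : ∀ c : ZMod 2, ¬ c = 0 → c = 1 := by decide
      have e1 : ∏ i ∈ T, B.val (h + 1) u (x + z i) =
          (∏ i ∈ T with B.query u ⬝ᵥ x + B.query u ⬝ᵥ z i = 0, B.val h (B.next u 0) (x + z i)) *
          ∏ i ∈ T with ¬ B.query u ⬝ᵥ x + B.query u ⬝ᵥ z i = 0,
            B.val h (B.next u 1) (x + z i) := by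
        rw [← prod_filter_mul_prod_filter_not T
          (fun i => B.query u ⬝ᵥ x + B.query u ⬝ᵥ z i = 0)]
        congr 1
        · refine prod_congr rfl fun i hi => ?_
          rw [B.val_step hu, dotProduct_add, (mem_filter.1 hi).2]
        · refine prod_congr rfl fun i hi => ?_
          rw [B.val_step hu, dotProduct_add, h01 _ (mem_filter.1 hi).2]
      rw [e1]
      by_cases h0 : B.query u ⬝ᵥ x = 0
      · simp only [h0, if_true, one_mul, zero_ne_one, if_false, zero_mul, add_zero]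
      · simp only [h01 _ h0, if_true, one_mul, one_ne_zero, if_false, zero_mul, zero_add]
    rw [e]
    refine ((key 0).add (key 1)).mono ?_
    rw [← two_mul, ← pow_succ']
    refine pow_le_pow_right₀ one_le_two ?_
    have h1 := hT.card_pos
    rcases a with _ | a
    · simp only [Nat.sub_zero, pow_zero, Nat.sub_self, mul_zero, zero_add, mul_add, mul_one,
        Nat.zero_sub]
      omega
    · have h2 : 0 < 2 ^ a := by positivity
      rw [Nat.add_sub_cancel, Nat.add_sub_add_right, pow_succ]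
      omega

end Program

end Pool.Agent.Lib.MP_79d702_lc.LBP
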